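import Pool.Agent.COSB.StmtsB

/-!
# Squad COSB, row CAN (helper39): canonical representatives of the cosets of the monomial matrices
-/

set_option autoImplicit false

namespace Pool.Agent.COSB.H39

open Pool.Agent.PAR Pool.Agent.COS
open Pool.Agent.COSB

theorem pai {n : ℕ} (π : Equiv.Perm (Fin n)) (j : Fin n) : π (π⁻¹ j) = j := π.apply_symm_apply j

theorem pia {n : ℕ} (π : Equiv.Perm (Fin n)) (j : Fin n) : π⁻¹ (π j) = j := π.symm_apply_apply j

section

variable {F : Type} [Field F]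

/-- the monomial matrix of `π`, `ζ` -/
def mm {n : ℕ} (π : Equiv.Perm (Fin n)) (ζ : Fin n → Fˣ) : Matrix (Fin n) (Fin n) F :=
  Matrix.of fun i j => if i = π j then (ζ j : F) else 0

theorem mul_mm {n : ℕ} (A : Matrix (Fin n) (Fin n) F) (π : Equiv.Perm (Fin n)) (ζ : Fin n → Fˣ)
    (M : Matrix (Fin n) (Fin n) F) (hM : ∀ i j, M i j = if i = π j then (ζ j : F) else 0)
    (i j : Fin n) : (A * M) i j = A i (π j) * ζ j := by
  rw [Matrix.mul_apply, Finset.sum_eq_single (π j)]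
  · rw [hM, if_pos rfl]
  · intro l _ hl
    rw [hM, if_neg hl, mul_zero]
  · intro h
    exact absurd (Finset.mem_univ _) h

/-- the monomial matrix as an invertible matrix -/
def mg {n : ℕ} (π : Equiv.Perm (Fin n)) (ζ : Fin n → Fˣ) :
    Matrix.GeneralLinearGroup (Fin n) F where
  val := mm π ζ
  inv := mm π⁻¹ (fun j => (ζ (π⁻¹ j))⁻¹)
  val_inv := by
    ext i j
    have h0 := mul_mm (mm π ζ) π⁻¹ (fun j => (ζ (π⁻¹ j))⁻¹) (mm π⁻¹ (fun j => (ζ (π⁻¹ j))⁻¹))
      (fun _ _ => rfl) i j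
    refine h0.trans ?_
    have h1 : mm π ζ i (π⁻¹ j) = if i = j then (ζ (π⁻¹ j) : F) else 0 := by
      show (if i = π (π⁻¹ j) then (ζ (π⁻¹ j) : F) else 0) = _
      rw [pai]
    rw [h1, Matrix.one_apply]
    by_cases h : i = j
    · rw [if_pos h, if_pos h]
      exact Units.mul_inv _
    · rw [if_neg h, if_neg h, zero_mul]
  inv_val := by
    ext i j
    have h0 := mul_mm (mm π⁻¹ (fun j => (ζ (π⁻¹ j))⁻¹)) π ζ (mm π ζ) (fun _ _ => rfl) i j
    refine h0.trans ?_
    have h1 : mm π⁻¹ (fun j => (ζ (π⁻¹ j))⁻¹) i (π j) =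
        if i = j then (((ζ j)⁻¹ : Fˣ) : F) else 0 := by
      show (if i = π⁻¹ (π j) then (((ζ (π⁻¹ (π j)))⁻¹ : Fˣ) : F) else 0) = _
      rw [pia]
    rw [h1, Matrix.one_apply]
    by_cases h : i = j
    · rw [if_pos h, if_pos h]
      exact Units.inv_mul _
    · rw [if_neg h, if_neg h, zero_mul]

theorem mul_mg {n : ℕ} (a : Matrix.GeneralLinearGroup (Fin n) F) (π : Equiv.Perm (Fin n))
    (ζ : Fin n → Fˣ) (i j : Fin n) : (a * mg π ζ).1 i j = a.1 i (π j) * ζ j :=
  mul_mm a.1 π ζ (mm π ζ) (fun _ _ => rfl) i j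

theorem det_ne {n : ℕ} (a : Matrix.GeneralLinearGroup (Fin n) F) : a.1.det ≠ 0 := by
  have h : IsUnit a.1.det := (Matrix.isUnit_iff_isUnit_det _).1 a.isUnit
  exact h.ne_zero

/-- the first nonzero entry of a column -/
theorem first {n : ℕ} (a : Matrix.GeneralLinearGroup (Fin n) F) (j : Fin n) :
    ∃ i, a.1 i j ≠ 0 ∧ ∀ i' < i, a.1 i' j = 0 := by
  have h1 : ∃ i, a.1 i j ≠ 0 := by
    by_contra hc
    apply det_ne a
    refine Matrix.det_eq_zero_of_column_eq_zero j fun i => ?_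
    by_contra hi
    exact hc ⟨i, hi⟩
  obtain ⟨i0, hi0⟩ := h1
  obtain ⟨i, hi, hmin⟩ := (wellFounded_lt (α := Fin n)).has_min {i | a.1 i j ≠ 0} ⟨i0, hi0⟩
  refine ⟨i, hi, fun i' hi' => ?_⟩
  by_contra hne
  exact hmin i' hne hi'

theorem col_inj {n : ℕ} (a : Matrix.GeneralLinearGroup (Fin n) F) {j j' : Fin n}
    (h : ∀ i, a.1 i j = a.1 i j') : j = j' := by
  by_contra hne
  exact det_ne a (Matrix.det_zero_of_column_eq hne h)

variable [Fintype F]

omit [Field F] in
theorem ltc_asymm {n : ℕ} {A : Matrix (Fin n) (Fin n) F} {j j' : Fin n} (h : LtC A j j')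
    (h' : LtC A j' j) : False := by
  obtain ⟨i, h1, h2⟩ := h
  obtain ⟨i2, h3, h4⟩ := h'
  rcases lt_trichotomy i i2 with h | h | h
  · rw [h3 i h] at h2
    exact lt_irrefl _ h2
  · rw [← h] at h4
    exact lt_asymm h2 h4
  · rw [h1 i2 h] at h4
    exact lt_irrefl _ h4

theorem exi {n : ℕ} (g : Matrix.GeneralLinearGroup (Fin n) F) :
    ∃ a : Matrix.GeneralLinearGroup (Fin n) F, Cnn a.1 ∧
      ∃ u : Matrix.GeneralLinearGroup (Fin n) F, IsMon u.1 ∧ g = a * u := by
  choose i0 h0 hlt using first g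
  let c : Fin n → Fˣ := fun j => Units.mk0 (g.1 (i0 j) j) (h0 j)
  let b : Matrix.GeneralLinearGroup (Fin n) F := g * mg 1 (fun j => (c j)⁻¹)
  have hb : ∀ i j, b.1 i j = g.1 i j * ((c j)⁻¹ : Fˣ) := fun i j => mul_mg g 1 _ i j
  let col : Fin n → Lex (Fin n → Fin (Fintype.card F)) := fun j => toLex fun i => eF F (b.1 i j)
  have hcol : Function.Injective col := by
    intro j j' h
    apply col_inj b
    intro i
    have h1 : (fun i => eF F (b.1 i j)) = fun i => eF F (b.1 i j') := toLex.injective h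
    exact (eF F).injective (congrFun h1 i)
  let σ : Equiv.Perm (Fin n) := Tuple.sort col
  have hσ : StrictMono (col ∘ σ) :=
    (Tuple.monotone_sort col).strictMono_of_injective (hcol.comp σ.injective)
  let a : Matrix.GeneralLinearGroup (Fin n) F := b * mg σ (fun _ => 1)
  have ha : ∀ i j, a.1 i j = b.1 i (σ j) := by
    intro i j
    have h1 := mul_mg b σ (fun _ => 1) i j
    rw [h1]
    simp
  refine ⟨a, ⟨?_, ?_⟩, mg σ⁻¹ c, ⟨σ⁻¹, c, fun _ _ => rfl⟩, ?_⟩
  · intro i j hz hne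
    rw [ha, hb] at hne ⊢
    have hg : g.1 i (σ j) ≠ 0 := left_ne_zero_of_mul hne
    have hi : i = i0 (σ j) := by
      rcases lt_trichotomy i (i0 (σ j)) with h | h | h
      · exact absurd (hlt (σ j) i h) hg
      · exact h
      · exfalso
        have h1 := hz _ h
        rw [ha, hb] at h1
        rcases mul_eq_zero.1 h1 with h2 | h2
        · exact h0 (σ j) h2
        · exact ((c (σ j))⁻¹).ne_zero h2
    rw [hi]
    exact Units.mul_inv (c (σ j))
  · intro j j' hjj
    have h1 : col (σ j) < col (σ j') := hσ hjj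
    obtain ⟨i, h2, h3⟩ := h1
    refine ⟨i, ?_, ?_⟩
    · intro i' hi'
      rw [ha, ha]
      exact (eF F).injective (h2 i' hi')
    · rw [ha, ha]
      exact h3
  · apply Units.ext
    ext i j
    rw [mul_mg a σ⁻¹ c i j, ha, hb, pai, mul_assoc, Units.inv_mul, mul_one]

theorem uni {n : ℕ} {a a' u u' : Matrix.GeneralLinearGroup (Fin n) F} (ha : Cnn a.1)
    (ha' : Cnn a'.1) (hu : IsMon u.1) (hu' : IsMon u'.1) (h : a * u = a' * u') : a = a' := by
  obtain ⟨π, ζ, hπ⟩ := hu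
  obtain ⟨π', ζ', hπ'⟩ := hu'
  have key : ∀ i j, a.1 i (π j) * ζ j = a'.1 i (π' j) * ζ' j := by
    intro i j
    have h1 : (a * u).1 i j = (a' * u').1 i j := by rw [h]
    have h2 : (a * u).1 i j = a.1 i (π j) * ζ j := mul_mm a.1 π ζ u.1 hπ i j
    have h3 : (a' * u').1 i j = a'.1 i (π' j) * ζ' j := mul_mm a'.1 π' ζ' u'.1 hπ' i j
    rw [← h2, ← h3]
    exact h1
  -- the coefficients agree
  have hζ : ∀ j, (ζ j : F) = ζ' j := by
    intro j
    obtain ⟨i, h1, h2⟩ := first a (π j)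
    have h3 : a.1 i (π j) = 1 := ha.1 i (π j) h2 h1
    have h4 : ∀ i' < i, a'.1 i' (π' j) = 0 := by
      intro i' hi'
      have h5 := key i' j
      rw [h2 i' hi', zero_mul] at h5
      rcases mul_eq_zero.1 h5.symm with h6 | h6
      · exact h6
      · exact absurd h6 (ζ' j).ne_zero
    have h5 : a'.1 i (π' j) ≠ 0 := by
      intro h6
      have h7 := key i j
      rw [h6, zero_mul, h3, one_mul] at h7
      exact (ζ j).ne_zero h7
    have h6 : a'.1 i (π' j) = 1 := ha'.1 i (π' j) h4 h5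
    have h7 := key i j
    rw [h3, h6, one_mul, one_mul] at h7
    exact h7
  have key2 : ∀ i j, a.1 i (π j) = a'.1 i (π' j) := by
    intro i j
    have h1 := key i j
    rw [hζ j] at h1
    exact mul_right_cancel₀ (ζ' j).ne_zero h1
  have key3 : ∀ i l, a.1 i l = a'.1 i ((π' * π⁻¹) l) := by
    intro i l
    have h1 := key2 i (π⁻¹ l)
    rw [pai] at h1
    exact h1
  have hmono : StrictMono (π' * π⁻¹ : Equiv.Perm (Fin n)) := by
    intro l l' hl
    by_contra hc
    have h1 : (π' * π⁻¹) l' < (π' * π⁻¹) l := by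
      rcases lt_trichotomy ((π' * π⁻¹) l) ((π' * π⁻¹) l') with h | h | h
      · exact absurd h hc
      · exact absurd ((π' * π⁻¹).injective h) hl.ne
      · exact h
    have h2 := ha'.2 _ _ h1
    obtain ⟨i, h3, h4⟩ := ha.2 _ _ hl
    have h5 : LtC a'.1 ((π' * π⁻¹) l) ((π' * π⁻¹) l') := by
      refine ⟨i, ?_, ?_⟩
      · intro i' hi'
        rw [← key3, ← key3]
        exact h3 i' hi'
      · rw [← key3, ← key3]
        exact h4
    exact ltc_asymm h2 h5
  have hid : (⇑(π' * π⁻¹ : Equiv.Perm (Fin n))) = id := by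
    refine (hmono.range_inj strictMono_id).1 ?_
    rw [(π' * π⁻¹).surjective.range_eq, Set.range_id]
  apply Units.ext
  ext i l
  rw [key3, hid, id_eq]

end

/-- **CAN** -/
theorem can : CanStmt := by
  intro F _ _ _ n g
  obtain ⟨a, ha, u, hu, hg⟩ := exi g
  refine ⟨a, ⟨ha, u, hu, hg⟩, ?_⟩
  rintro a' ⟨ha', u', hu', hg'⟩
  exact uni ha' ha hu' hu (hg'.symm.trans hg)

end Pool.Agent.COSB.H39
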