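import Pool.Agent.COSB.StmtsA

/-!
# Squad COSB, row HLF (helper39): the codes of the reduced matrices
-/

set_option autoImplicit false

namespace Pool.Agent.COSB.H39

open Pool.Agent.PAR Pool.Agent.COS
open Pool.Agent.COSB

/-- **HLF** -/
theorem hlf (_odc : OdcStmt) (wra : COS.WraStmt) (rdk : RdkStmt) (woe : WoeStmt) (woc : WocStmt) :
    HlfStmt := by
  intro n k hk R
  obtain ⟨_, _, hru, hsur, hinj, hlen⟩ := wra n
  obtain ⟨rmul, rone, rup, _, hlift, _⟩ := rdk n k hk
  obtain ⟨wlen, wgE, winj, wsur, wwE⟩ := woe n k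
  obtain ⟨_, _, _, _, hgO⟩ := woc n k hk
  choose L hL using hlift
  let F : Gr n → Word := fun a => enc a.1 ++ enc2 k ((L a)⁻¹).1
  -- the product in words
  have hprod : ∀ (a₀ : Matrix (Fin n) (Fin n) (ZMod 2))
      (B : Matrix (Fin n) (Fin n) (ZMod (2 ^ k))),
      wE n k (mm n (gO n (enc a₀)) (gE n k (enc2 k B))) = enc2 k (up k a₀ * B) := by
    intro a₀ B
    apply wwE
    intro i j
    unfold mm
    rw [Nat.cast_sum, Finset.sum_range, Matrix.mul_apply]
    refine Finset.sum_congr rfl fun l _ => ?_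
    rw [Nat.cast_mul, hgO, wgE]
  have hid : wE n k dl = enc2 k (1 : Matrix (Fin n) (Fin n) (ZMod (2 ^ k))) := by
    apply wwE
    intro i j
    rw [Matrix.one_apply]
    unfold dl
    by_cases h : i = j
    · rw [if_pos (congrArg Fin.val h), if_pos h, Nat.cast_one]
    · rw [if_neg (fun h' => h (Fin.ext h')), if_neg h, Nat.cast_zero]
  have hhalf : ∀ (a₀ : Matrix (Fin n) (Fin n) (ZMod 2))
      (B : Matrix (Fin n) (Fin n) (ZMod (2 ^ k))),
      half n k (enc a₀ ++ enc2 k B) = true ↔ Red a₀ ∧ up k a₀ * B = 1 := by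
    intro a₀ B
    unfold half
    rw [List.take_left' (hlen a₀), List.drop_left' (hlen a₀), Bool.and_eq_true, decide_eq_true_eq,
      (hru a₀).1, hprod, hid]
    constructor
    · rintro ⟨h1, h2⟩
      exact ⟨h1, winj _ _ h2⟩
    · rintro ⟨h1, h2⟩
      exact ⟨h1, by rw [h2]⟩
  have hset : {h : Word | h.length = hl n k ∧
      (half n k h = true ∧ R (h.take (n * n)) (h.drop (n * n)))} =
      F '' {a : Gr n | Red a.1 ∧ ∃ A : G2 n k, A.1 = up k a.1 ∧
        R (enc a.1) (enc2 k (A⁻¹).1)} := by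
    ext h
    constructor
    · rintro ⟨h1, h2, h3⟩
      have h1' : h.length = n * n + n * n * k := h1
      obtain ⟨a₀, ha₀⟩ := hsur (h.take (n * n)) (by
        rw [List.length_take, h1']
        omega)
      obtain ⟨B, hB⟩ := wsur (h.drop (n * n)) (by
        rw [List.length_drop, h1']
        omega)
      have hh : h = enc a₀ ++ enc2 k B := by
        rw [ha₀, hB, List.take_append_drop]
      rw [← ha₀, ← hB] at h3
      rw [hh] at h2
      obtain ⟨h4, h5⟩ := (hhalf a₀ B).1 h2
      have h6 : a₀ * rd B = 1 := by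
        have h7 := rmul (up k a₀) B
        rw [h5, rone, rup] at h7
        exact h7.symm
      let a : Gr n := ⟨a₀, rd B, h6, mul_eq_one_comm.1 h6⟩
      let A : G2 n k := ⟨up k a₀, B, h5, mul_eq_one_comm.1 h5⟩
      have hLA : L a = A := Units.ext (hL a)
      refine ⟨a, ⟨h4, A, rfl, h3⟩, ?_⟩
      show enc a.1 ++ enc2 k ((L a)⁻¹).1 = h
      rw [hLA, hh]
      rfl
    · rintro ⟨a, ⟨h1, A, hA, h2⟩, rfl⟩
      have hLA : L a = A := Units.ext ((hL a).trans hA.symm)
      have hF : F a = enc a.1 ++ enc2 k (A⁻¹).1 := by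
        show enc a.1 ++ enc2 k ((L a)⁻¹).1 = _
        rw [hLA]
      rw [hF]
      refine ⟨?_, (hhalf _ _).2 ⟨h1, ?_⟩, ?_⟩
      · rw [List.length_append, hlen, wlen]
        rfl
      · rw [← hA]
        exact A.mul_inv
      · rw [List.take_left' (hlen a.1), List.drop_left' (hlen a.1)]
        exact h2
  have hFinj : Function.Injective F := by
    intro a b h
    have h1 := congrArg (fun w => List.take (n * n) w) h
    have h2 : (F a).take (n * n) = enc a.1 := List.take_left' (hlen a.1)
    have h3 : (F b).take (n * n) = enc b.1 := List.take_left' (hlen b.1)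
    have h4 : enc a.1 = enc b.1 := by
      rw [← h2, ← h3]
      exact h1
    exact Units.ext (hinj _ _ h4)
  unfold Od
  rw [hset, Set.ncard_image_of_injective _ hFinj]

end Pool.Agent.COSB.H39
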