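import Pool.Agent.COSB.StmtsB

/-!
# Squad COSB, row LFT (helper39): the fibres of a heap over `Z / p^k` are odd for odd `p`
-/

set_option autoImplicit false

namespace Pool.Agent.COSB.H39

open Pool.Agent.PAR Pool.Agent.COS
open Pool.Agent.COSB

/-- an element which is not mapped to `0` is a unit -/
theorem unit_of {F : Type} [Field F] {p k : ℕ} (hp : p.Prime) (η : ZMod (p ^ k) →+* F)
    (a : ZMod (p ^ k)) (ha : η a ≠ 0) : IsUnit a := by
  haveI : NeZero (p ^ k) := ⟨pow_ne_zero _ hp.ne_zero⟩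
  have h1 : ((a.val : ℕ) : ZMod (p ^ k)) = a := ZMod.natCast_zmod_val a
  have hk : k ≠ 0 := by
    rintro rfl
    have h2 : (1 : ZMod (p ^ 0)) = 0 := by
      have h3 : ((p ^ 0 : ℕ) : ZMod (p ^ 0)) = 0 := ZMod.natCast_self _
      rw [Nat.cast_pow] at h3
      exact (pow_zero _).symm.trans h3
    have h4 : η 1 = η 0 := by rw [h2]
    rw [map_one, map_zero] at h4
    exact one_ne_zero h4
  rw [← h1, ZMod.isUnit_iff_coprime]
  by_contra hc
  apply ha
  have h2 : p ∣ a.val := by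
    by_contra hd
    exact hc (Nat.Coprime.pow_right k (((Nat.Prime.coprime_iff_not_dvd hp).2 hd).symm))
  obtain ⟨b, hb⟩ := h2
  have h3 : a ^ k = 0 := by
    rw [← h1, hb, ← Nat.cast_pow, mul_pow, Nat.cast_mul, ZMod.natCast_self, zero_mul]
  have h4 : η a ^ k = 0 := by rw [← map_pow, h3, map_zero]
  exact pow_eq_zero_iff hk |>.1 h4

theorem two_ne {F : Type} [Field F] {p k : ℕ} (hp : p.Prime) (hp2 : p ≠ 2)
    (η : ZMod (p ^ k) →+* F) : (2 : F) ≠ 0 := by
  intro h
  obtain ⟨m, hm⟩ := hp.odd_of_ne_two hp2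
  have h1 : (p : F) = 1 := by
    rw [hm]
    push_cast
    rw [h]
    ring
  have h2 : ((p ^ k : ℕ) : F) = 0 := by
    have h3 : ((p ^ k : ℕ) : ZMod (p ^ k)) = 0 := ZMod.natCast_self _
    rw [← map_natCast η, h3, map_zero]
  rw [Nat.cast_pow, h1, one_pow] at h2
  exact one_ne_zero h2

/-- **LFT** -/
theorem lft : LftStmt := by
  intro F _ p k n hp hp2 η W hW w₀ hw₀
  haveI : NeZero (p ^ k) := ⟨pow_ne_zero _ hp.ne_zero⟩
  let φ : Gp p k n →* Matrix.GeneralLinearGroup (Fin n) F := Matrix.GeneralLinearGroup.map η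
  let N : Subgroup (Gp p k n) :=
    { carrier := {t | φ t = 1 ∧ w₀ * t ∈ W}
      one_mem' := ⟨map_one φ, by rw [mul_one]; exact hw₀⟩
      mul_mem' := by
        rintro s t ⟨hs1, hs2⟩ ⟨ht1, ht2⟩
        refine ⟨by rw [map_mul, hs1, ht1, one_mul], ?_⟩
        have h := hW _ hs2 _ hw₀ _ ht2
        have e : w₀ * s * w₀⁻¹ * (w₀ * t) = w₀ * (s * t) := by group
        rw [e] at h
        exact h
      inv_mem' := by
        rintro t ⟨ht1, ht2⟩
        refine ⟨by rw [map_inv, ht1, inv_one], ?_⟩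
        have h := hW _ hw₀ _ ht2 _ hw₀
        have e : w₀ * (w₀ * t)⁻¹ * w₀ = w₀ * t⁻¹ := by group
        rw [e] at h
        exact h }
  have hN : ∀ t, t ∈ N ↔ φ t = 1 ∧ w₀ * t ∈ W := fun t => Iff.rfl
  have hfib : {w : Gp p k n | w ∈ W ∧ Matrix.GeneralLinearGroup.map η w =
      Matrix.GeneralLinearGroup.map η w₀} = (fun t => w₀ * t) '' (N : Set (Gp p k n)) := by
    ext w
    constructor
    · rintro ⟨h1, h2⟩
      refine ⟨w₀⁻¹ * w, ?_, by simp⟩
      refine (hN _).2 ⟨?_, ?_⟩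
      · have h3 : φ w = φ w₀ := h2
        rw [map_mul, map_inv, h3, inv_mul_cancel]
      · rw [mul_inv_cancel_left]
        exact h1
    · rintro ⟨t, ht, rfl⟩
      obtain ⟨h1, h2⟩ := (hN t).1 ht
      refine ⟨h2, ?_⟩
      show φ (w₀ * t) = φ w₀
      rw [map_mul, h1, mul_one]
  rw [hfib, Set.ncard_image_of_injective _ (mul_right_injective w₀)]
  have hcard : (N : Set (Gp p k n)).ncard = Nat.card N := rfl
  rw [hcard]
  by_contra hodd
  have heven : Even (Nat.card N) := Nat.not_odd_iff_even.1 hodd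
  haveI : Fact (Nat.Prime 2) := ⟨Nat.prime_two⟩
  obtain ⟨⟨t, htN⟩, ht⟩ := exists_prime_orderOf_dvd_card' (G := N) 2 heven.two_dvd
  have hsq : (⟨t, htN⟩ : N) ^ 2 = 1 := by
    rw [← ht]
    exact pow_orderOf_eq_one _
  have hne : (⟨t, htN⟩ : N) ≠ 1 := by
    intro h
    rw [h, orderOf_one] at ht
    omega
  have hsq' : t * t = 1 := by
    have h := congrArg Subtype.val hsq
    rw [← pow_two]
    exact h
  obtain ⟨ht1, _⟩ := (hN t).1 htN
  apply hne
  apply Subtype.ext
  show t = 1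
  apply Units.ext
  have hm : t.1 * t.1 = 1 := by
    have h := congrArg Units.val hsq'
    exact h
  have hmap : η.mapMatrix t.1 = 1 := by
    have h := congrArg Units.val ht1
    exact h
  have hdet : IsUnit (t.1 + 1).det := by
    apply unit_of hp η
    rw [RingHom.map_det, map_add, hmap, map_one]
    have h1 : (1 + 1 : Matrix (Fin n) (Fin n) F) = (2 : F) • 1 := by
      rw [two_smul]
    rw [h1, Matrix.det_smul, Matrix.det_one, mul_one]
    exact pow_ne_zero _ (two_ne hp hp2 η)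
  have hu : IsUnit (t.1 + 1) := (Matrix.isUnit_iff_isUnit_det _).2 hdet
  have h0 : (t.1 - 1) * (t.1 + 1) = 0 := by
    have h1 : (t.1 - 1) * (t.1 + 1) = t.1 * t.1 - 1 := by noncomm_ring
    rw [h1, hm, sub_self]
  have h1 : t.1 - 1 = 0 := (hu.mul_left_eq_zero).1 h0
  show t.1 = 1
  exact sub_eq_zero.1 h1

end Pool.Agent.COSB.H39
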